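import Mathlib

/-!
Linear-by-polynomial empty pairs in graphs of bounded vector chromatic number: the counting lemma
and the averaging lemma.
-/

namespace Pool.Agent.H14.EP

open Finset

/-- A set `R` of `r` vertices of `Bs` that misses at least half of `Y`. -/
theorem markov_subset {V : Type} [DecidableEq V] (adj : V → V → Prop) [DecidableRel adj]
    (Bs Y : Finset V) (m : ℝ) (r : ℕ) (hm1 : 1 ≤ m)
    (hm : ∀ y ∈ Y, ((Bs.filter (fun x => adj x y)).card : ℝ) ≤ m)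
    (h4 : 4 * (r : ℝ) * m ≤ Bs.card) :
    ∃ R ⊆ Bs, R.card = r ∧
      2 * ((Y.filter (fun y => ∃ x ∈ R, adj x y)).card : ℝ) ≤ Y.card := by
  classical
  rcases Nat.eq_zero_or_pos r with hr | hr
  · refine ⟨∅, by simp, by simp [hr], ?_⟩
    simp
  have hr' : (1 : ℝ) ≤ r := by exact_mod_cast hr
  have hB : (0 : ℝ) < Bs.card := by nlinarith
  set d : V → ℕ := fun x => (Y.filter (fun y => adj x y)).card with hd
  have hsum : (∑ x ∈ Bs, (d x : ℝ)) ≤ Y.card * m := by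
    have h1 : ∑ x ∈ Bs, d x = ∑ y ∈ Y, (Bs.filter (fun x => adj x y)).card := by
      simp only [hd, Finset.card_filter]
      exact Finset.sum_comm
    have h2 : (∑ x ∈ Bs, (d x : ℝ)) = ∑ y ∈ Y, ((Bs.filter (fun x => adj x y)).card : ℝ) := by
      exact_mod_cast h1
    rw [h2]
    calc ∑ y ∈ Y, ((Bs.filter (fun x => adj x y)).card : ℝ) ≤ ∑ _y ∈ Y, m :=
          Finset.sum_le_sum hm
      _ = Y.card * m := by simp
  set Lo := Bs.filter (fun x => (d x : ℝ) * Bs.card ≤ 2 * (Y.card * m)) with hLo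
  set Hi := Bs.filter (fun x => ¬ (d x : ℝ) * Bs.card ≤ 2 * (Y.card * m)) with hHi
  have hcard : (Lo.card : ℝ) + Hi.card = Bs.card := by
    have h0 : Lo.card + Hi.card = Bs.card := Finset.card_filter_add_card_filter_not (s := Bs)
      (fun x => (d x : ℝ) * Bs.card ≤ 2 * (Y.card * m))
    rw [← h0]
    push_cast
    rfl
  have hHi2 : 2 * (Hi.card : ℝ) ≤ Bs.card := by
    by_contra hcon
    push Not at hcon
    have hne : Hi.Nonempty := by
      rw [← Finset.card_pos]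
      have : (0 : ℝ) < Hi.card := by linarith
      exact_mod_cast this
    have h3 : (Hi.card : ℝ) * (2 * (Y.card * m)) < (∑ x ∈ Hi, (d x : ℝ)) * Bs.card := by
      rw [Finset.sum_mul]
      calc (Hi.card : ℝ) * (2 * (Y.card * m)) = ∑ _x ∈ Hi, (2 * (Y.card * m)) := by simp
        _ < ∑ x ∈ Hi, (d x : ℝ) * Bs.card := by
            refine Finset.sum_lt_sum_of_nonempty hne fun x hx => ?_
            exact not_le.1 (Finset.mem_filter.1 hx).2
    have h4' : (∑ x ∈ Hi, (d x : ℝ)) ≤ ∑ x ∈ Bs, (d x : ℝ) :=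
      Finset.sum_le_sum_of_subset_of_nonneg (Finset.filter_subset _ _)
        (fun _ _ _ => Nat.cast_nonneg _)
    have h5 : (∑ x ∈ Hi, (d x : ℝ)) * Bs.card ≤ (Y.card * m) * Bs.card :=
      mul_le_mul_of_nonneg_right (h4'.trans hsum) hB.le
    have h6 : (0 : ℝ) ≤ Y.card * m := by positivity
    nlinarith
  have hLo2 : r ≤ Lo.card := by
    have h7 : (r : ℝ) ≤ Lo.card := by nlinarith
    exact_mod_cast h7
  obtain ⟨R, hR, hRc⟩ := Finset.exists_subset_card_eq hLo2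
  refine ⟨R, hR.trans (Finset.filter_subset _ _), hRc, ?_⟩
  have h8 : (Y.filter (fun y => ∃ x ∈ R, adj x y)).card ≤ ∑ x ∈ R, d x := by
    have hsub : Y.filter (fun y => ∃ x ∈ R, adj x y) ⊆ R.biUnion fun x =>
        Y.filter (fun y => adj x y) := by
      intro y hy
      rw [Finset.mem_filter] at hy
      obtain ⟨hy1, x, hx, hxy⟩ := hy
      rw [Finset.mem_biUnion]
      exact ⟨x, hx, Finset.mem_filter.2 ⟨hy1, hxy⟩⟩
    exact (Finset.card_le_card hsub).trans Finset.card_biUnion_le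
  have h9 : (∑ x ∈ R, (d x : ℝ)) * Bs.card ≤ r * (2 * (Y.card * m)) := by
    rw [Finset.sum_mul]
    calc ∑ x ∈ R, (d x : ℝ) * Bs.card ≤ ∑ _x ∈ R, (2 * (Y.card * m)) :=
          Finset.sum_le_sum fun x hx => (Finset.mem_filter.1 (hR hx)).2
      _ = r * (2 * (Y.card * m)) := by rw [Finset.sum_const, hRc, nsmul_eq_mul]
  have h8' : ((Y.filter (fun y => ∃ x ∈ R, adj x y)).card : ℝ) ≤ ∑ x ∈ R, (d x : ℝ) := by
    exact_mod_cast h8
  have hYn : (0 : ℝ) ≤ Y.card := Nat.cast_nonneg _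
  have h10 : 2 * (∑ x ∈ R, (d x : ℝ)) * Bs.card ≤ Y.card * Bs.card := by
    nlinarith [mul_le_mul_of_nonneg_left h4 hYn]
  have h11 : 2 * (∑ x ∈ R, (d x : ℝ)) ≤ Y.card := le_of_mul_le_mul_right h10 hB
  linarith

variable {V : Type} {E : Type} [NormedAddCommGroup E] [InnerProductSpace ℝ E]

/-- the average of the vectors over a set -/
noncomputable def avg (φ : V → E) (B : Finset V) : E := (B.card : ℝ)⁻¹ • ∑ x ∈ B, φ x

theorem card_smul_avg (φ : V → E) {B : Finset V} (hB : B.Nonempty) :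
    (B.card : ℝ) • avg φ B = ∑ x ∈ B, φ x := by
  have : (B.card : ℝ) ≠ 0 := by exact_mod_cast hB.card_pos.ne'
  rw [avg, smul_smul, mul_inv_cancel₀ this, one_smul]

theorem norm_avg_le (φ : V → E) (hφ : ∀ x, ‖φ x‖ ≤ 1) {B : Finset V} (hB : B.Nonempty) :
    ‖avg φ B‖ ≤ 1 := by
  have hpos : (0 : ℝ) < B.card := by exact_mod_cast hB.card_pos
  rw [avg, norm_smul, norm_inv, Real.norm_of_nonneg hpos.le]
  have h1 : ‖∑ x ∈ B, φ x‖ ≤ B.card := by
    refine (norm_sum_le _ _).trans ?_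
    calc ∑ x ∈ B, ‖φ x‖ ≤ ∑ _x ∈ B, (1 : ℝ) := Finset.sum_le_sum fun x _ => hφ x
      _ = B.card := by simp
  calc (B.card : ℝ)⁻¹ * ‖∑ x ∈ B, φ x‖ ≤ (B.card : ℝ)⁻¹ * B.card :=
        mul_le_mul_of_nonneg_left h1 (by positivity)
    _ = 1 := inv_mul_cancel₀ hpos.ne'

theorem inner_avg (φ : V → E) {B : Finset V} (hB : B.Nonempty) (w : E) :
    (B.card : ℝ) * inner ℝ (avg φ B) w = ∑ x ∈ B, inner ℝ (φ x) w := by
  rw [← real_inner_smul_left, card_smul_avg φ hB, sum_inner]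

theorem inner_avg_le (φ : V → E) {B : Finset V} (hB : B.Nonempty) (w : E) (t : ℝ)
    (h : ∀ x ∈ B, inner ℝ (φ x) w ≤ t) : inner ℝ (avg φ B) w ≤ t := by
  have hpos : (0 : ℝ) < B.card := by exact_mod_cast hB.card_pos
  have h1 : (B.card : ℝ) * inner ℝ (avg φ B) w ≤ B.card * t := by
    rw [inner_avg φ hB]
    calc ∑ x ∈ B, inner ℝ (φ x) w ≤ ∑ _x ∈ B, t := Finset.sum_le_sum h
      _ = B.card * t := by simp
  exact le_of_mul_le_mul_left h1 hpos

theorem le_inner_avg (φ : V → E) {B : Finset V} (hB : B.Nonempty) (w : E) (t : ℝ)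
    (h : ∀ x ∈ B, t ≤ inner ℝ (φ x) w) : t ≤ inner ℝ (avg φ B) w := by
  have hpos : (0 : ℝ) < B.card := by exact_mod_cast hB.card_pos
  have h1 : (B.card : ℝ) * t ≤ B.card * inner ℝ (avg φ B) w := by
    rw [inner_avg φ hB]
    calc (B.card : ℝ) * t = ∑ _x ∈ B, t := by simp
      _ ≤ ∑ x ∈ B, inner ℝ (φ x) w := Finset.sum_le_sum h
  exact le_of_mul_le_mul_left h1 hpos

/-- the robust part of a set -/
theorem robust [DecidableEq V] (φ : V → E) (hφ : ∀ x, ‖φ x‖ ≤ 1) {B : Finset V}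
    (hB : B.Nonempty) (s : ℝ) (hs : 0 < s) (hs1 : s ≤ 1) :
    ∃ Bs ⊆ B, s / 2 * B.card ≤ Bs.card ∧
      ∀ x ∈ Bs, ‖avg φ B‖ ^ 2 - s ≤ inner ℝ (φ x) (avg φ B) := by
  classical
  set u := avg φ B with hu
  set M := ‖u‖ ^ 2 with hM
  have hun : ‖u‖ ≤ 1 := norm_avg_le φ hφ hB
  refine ⟨B.filter (fun x => M - s ≤ inner ℝ (φ x) u), Finset.filter_subset _ _, ?_,
    fun x hx => (Finset.mem_filter.1 hx).2⟩
  set Bs := B.filter (fun x => M - s ≤ inner ℝ (φ x) u) with hBs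
  set Bc := B.filter (fun x => ¬ M - s ≤ inner ℝ (φ x) u) with hBc
  have hcard : (Bs.card : ℝ) + Bc.card = B.card := by
    have := Finset.card_filter_add_card_filter_not (s := B) (fun x => M - s ≤ inner ℝ (φ x) u)
    exact_mod_cast this
  have h1 : (B.card : ℝ) * M = ∑ x ∈ B, inner ℝ (φ x) u := by
    rw [← inner_avg φ hB, ← hu, real_inner_self_eq_norm_sq]
  have h2 : ∑ x ∈ B, inner ℝ (φ x) u =
      ∑ x ∈ Bs, inner ℝ (φ x) u + ∑ x ∈ Bc, inner ℝ (φ x) u :=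
    (Finset.sum_filter_add_sum_filter_not B _ _).symm
  have h3 : ∑ x ∈ Bs, inner ℝ (φ x) u ≤ Bs.card * 1 := by
    calc ∑ x ∈ Bs, inner ℝ (φ x) u ≤ ∑ _x ∈ Bs, (1 : ℝ) := by
          refine Finset.sum_le_sum fun x _ => (real_inner_le_norm _ _).trans ?_
          exact mul_le_one₀ (hφ x) (norm_nonneg _) hun
      _ = Bs.card * 1 := by simp
  have h4 : ∑ x ∈ Bc, inner ℝ (φ x) u ≤ Bc.card * (M - s) := by
    calc ∑ x ∈ Bc, inner ℝ (φ x) u ≤ ∑ _x ∈ Bc, (M - s) :=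
          Finset.sum_le_sum fun x hx => (not_le.1 (Finset.mem_filter.1 hx).2).le
      _ = Bc.card * (M - s) := by rw [Finset.sum_const, nsmul_eq_mul]
  have hM0 : 0 ≤ M := by positivity
  have hBs0 : (0 : ℝ) ≤ Bs.card := Nat.cast_nonneg _
  have hBc0 : (0 : ℝ) ≤ Bc.card := Nat.cast_nonneg _
  nlinarith

theorem close (φ : V → E) {B B' : Finset V} (hB' : B'.Nonempty) (s ε : ℝ)
    (h1 : ∀ x ∈ B', ‖avg φ B‖ ^ 2 - s ≤ inner ℝ (φ x) (avg φ B))
    (h2 : ‖avg φ B'‖ ^ 2 ≤ ‖avg φ B‖ ^ 2 + ε) :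
    ‖avg φ B - avg φ B'‖ ^ 2 ≤ ε + 2 * s := by
  rw [norm_sub_sq_real]
  have h3 := le_inner_avg φ hB' (avg φ B) _ h1
  rw [real_inner_comm] at h3
  linarith

end Pool.Agent.H14.EP
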