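import Pool.Agent.H64.EP.Targets

/-!
# Counting the data of one coordinate
-/

set_option autoImplicit false

open Finset
open scoped Classical

namespace Pool.Agent.H14.EP.CNT

open Pool.Agent.H64.EP

theorem pf_CNT : T_CNT := by
  intro k L R hL hR i j e z hij
  unfold cnt
  by_cases hi : i ∈ e
  · by_cases hj : j ∈ e
    · rw [if_pos hi, if_pos hj]
      have h1 : (univ : Finset (W L R)).filter (fun x => rel i j e x z) =
          (univ : Finset (Lab L R)) ×ˢ
            Fintype.piFinset (fun t : Fin L => (univ : Finset (Fin R)).erase (z.2 t)) := by
        ext x
        simp [rel, hi, hj]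
      rw [h1, card_product, Fintype.card_piFinset]
      have h2 : ∀ t : Fin L, ((univ : Finset (Fin R)).erase (z.2 t)).card = R - 1 := by
        intro t
        rw [card_erase_of_mem (mem_univ _), card_univ, Fintype.card_fin]
      simp only [h2, prod_const, card_univ, Fintype.card_fin, Fintype.card_prod]
      push_cast [Nat.cast_sub hR]
      ring
    · rw [if_pos hi, if_neg hj]
      have h1 : (univ : Finset (W L R)).filter (fun x => rel i j e x z) =
          (univ : Finset (Lab L R)) ×ˢ
            Fintype.piFinset (fun t : Fin L => if t = z.1.1 then ({z.1.2} : Finset (Fin R))
              else univ) := by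
        ext x
        simp only [rel, hi, hj, mem_filter, mem_univ, true_and, mem_product, Fintype.mem_piFinset,
          not_true_eq_false, not_false_eq_true, true_implies, false_implies, and_true]
        constructor
        · intro h t
          by_cases ht : t = z.1.1
          · rw [if_pos ht, mem_singleton, ht]; exact h
          · rw [if_neg ht]; exact mem_univ _
        · intro h
          have := h z.1.1
          rw [if_pos rfl, mem_singleton] at this
          exact this
      rw [h1, card_product, Fintype.card_piFinset]
      have h2 : ∏ t : Fin L, (if t = z.1.1 then ({z.1.2} : Finset (Fin R)) else univ).card =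
          R ^ (L - 1) := by
        rw [← mul_prod_erase univ _ (mem_univ z.1.1), if_pos rfl, card_singleton, one_mul]
        rw [prod_congr rfl (g := fun _ => R)]
        · rw [prod_const, card_erase_of_mem (mem_univ _), card_univ, Fintype.card_fin]
        · intro t ht
          rw [if_neg (ne_of_mem_erase ht), card_univ, Fintype.card_fin]
      rw [h2]
      obtain ⟨m, rfl⟩ : ∃ m, L = m + 1 := ⟨L - 1, by omega⟩
      simp only [card_univ, Fintype.card_fin, Fintype.card_prod, Nat.add_sub_cancel]
      push_cast
      ring
  · by_cases hj : j ∈ e
    · rw [if_neg hi, if_pos hj]
      have h1 : (univ : Finset (W L R)).filter (fun x => rel i j e x z) =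
          ((univ : Finset (Fin L)).image fun t => (t, z.2 t)) ×ˢ (univ : Finset (St L R)) := by
        ext x
        simp only [rel, hi, hj, mem_filter, mem_univ, true_and, mem_product, mem_image,
          not_true_eq_false, not_false_eq_true, true_implies, false_implies, and_true]
        constructor
        · intro h
          exact ⟨x.1.1, by rw [h]⟩
        · rintro ⟨t, ht⟩
          rw [← ht]
      rw [h1, card_product, card_image_of_injective]
      · simp only [card_univ, Fintype.card_fin, Fintype.card_pi, prod_const]
        push_cast
        ring
      · intro s t h
        exact (Prod.ext_iff.mp h).1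
    · rw [if_neg hi, if_neg hj]
      have h1 : (univ : Finset (W L R)).filter (fun x => rel i j e x z) = univ := by
        ext x
        simp [rel, hi, hj]
      rw [h1]
      simp only [card_univ, Fintype.card_fin, Fintype.card_pi, Fintype.card_prod, prod_const]
      push_cast
      ring

end Pool.Agent.H14.EP.CNT
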