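import Pool.Agent.H64.EP.Targets

/-!
# Few vertices dominate almost all data of one type
-/

set_option autoImplicit false

open Finset
open scoped Classical

namespace Pool.Agent.H14.EP.COV

open Pool.Agent.H64.EP

theorem mem_filt {α : Type} [Fintype α] {p : α → Prop} (inst : DecidablePred p) {z : α}
    (h : p z) : z ∈ @Finset.filter α p inst univ := by
  simp [h]

theorem isKer_prod {ι E α : Type} [Fintype E] [DecidableEq E] [Fintype α]
    (K : E → ι → α → α → ℝ) (h : ∀ e, IsKer (K e)) :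
    IsKer (fun i (z x : E → α) => ∏ e, K e i (z e) (x e)) := by
  constructor
  · intro i z x
    exact prod_nonneg fun e _ => (h e).1 i (z e) (x e)
  · intro i z
    have h1 : ∏ e, ∑ a, K e i (z e) a = 1 := prod_eq_one fun e _ => (h e).2 i (z e)
    rw [prod_univ_sum, Fintype.piFinset_univ] at h1
    exact h1

theorem pf_COV (hG : T_GI) (hT : T_TAIL) (hK : T_KER) (hA : T_HEA) (hB : T_HEB) (hKK : T_KK)
    (hR : T_GRE) : T_COV := by
  intro k r m c δ hr hk hc hc1 hδ j Γ X hΓ hjΓ hX hδ2 hm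
  have h9 : 1 ≤ 9 ^ r := Nat.one_le_pow _ _ (by norm_num)
  have hk1 : 1 ≤ k := by omega
  have hL : 1 ≤ 2 * r * k := Nat.one_le_iff_ne_zero.mpr (by positivity)
  have hL2 : 4 * r * 9 ^ r ≤ 2 * r * k := by
    calc 4 * r * 9 ^ r = 2 * r * (2 * 9 ^ r) := by ring
      _ ≤ 2 * r * k := Nat.mul_le_mul_left _ hk
  have : Nonempty (W (2 * r * k) (2 * r + 1)) :=
    ⟨((⟨0, hL⟩, ⟨0, by omega⟩), fun _ => ⟨0, by omega⟩)⟩
  have hker : ∀ e : Sym2 (Fin k),
      IsKer (fun i (z x : W (2 * r * k) (2 * r + 1)) => ker j e i z x) :=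
    fun e => hK k _ _ hL (by omega) j e
  have hHI : ∀ e : Sym2 (Fin k),
      HI r (fun i (z x : W (2 * r * k) (2 * r + 1)) => ker j e i z x) := by
    intro e
    by_cases he : j ∈ e
    · exact hB k r hr hk1 j e he
    · exact hA k _ _ r hr (by omega) hL2 j e he
  have h1 : HI r (fun i (z x : Dat k (2 * r * k) (2 * r + 1)) =>
      ∏ e, ker j e i (z e) (x e)) :=
    hG (Fin k) (Sym2 (Fin k)) (W (2 * r * k) (2 * r + 1)) r
      (fun e i z x => ker j e i z x) hr hker hHI
  have h2 : IsKer (fun i (z x : Dat k (2 * r * k) (2 * r + 1)) =>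
      ∏ e, ker j e i (z e) (x e)) :=
    isKer_prod (fun e i (z x : W (2 * r * k) (2 * r + 1)) => ker j e i z x) hker
  have h3 := hT (Fin k) (Dat k (2 * r * k) (2 * r + 1)) r _ c Γ X h2 h1 hc.le hX
  have hDpos : 0 < (Fintype.card (Dat k (2 * r * k) (2 * r + 1)) : ℝ) := by
    have : 0 < Fintype.card (Dat k (2 * r * k) (2 * r + 1)) := Fintype.card_pos
    exact_mod_cast this
  have hRpos : (0 : ℝ) < ((2 * r + 1 : ℕ) : ℝ) ^ (3 * k) := by positivity
  have hkpos : (0 : ℝ) < k := by exact_mod_cast hk1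
  have hXne : ∀ i ∈ Γ, (X i).Nonempty := by
    intro i hi
    have h4 := hX i hi
    have h5 : (0 : ℝ) < ((X i).card : ℝ) := lt_of_lt_of_le (mul_pos hc hDpos) h4
    rw [← card_pos]
    exact_mod_cast h5
  have hSne : ((univ : Finset (Fin k × Dat k (2 * r * k) (2 * r + 1))).filter
      fun p => p.1 ∈ Γ ∧ p.2 ∈ X p.1).Nonempty := by
    obtain ⟨i, hi⟩ := hΓ
    obtain ⟨x, hx⟩ := hXne i hi
    exact ⟨(i, x), by simp [hi, hx]⟩
  have hbad : (((univ : Finset (Dat k (2 * r * k) (2 * r + 1))).filter (fun z =>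
      ((((univ : Finset (Fin k × Dat k (2 * r * k) (2 * r + 1))).filter
        fun p => p.1 ∈ Γ ∧ p.2 ∈ X p.1).filter (fun p => adj p (j, z))).card : ℝ) <
        c / (4 * k * ((2 * r + 1 : ℕ) : ℝ) ^ (3 * k)) *
          (Fintype.card (Fin k × Dat k (2 * r * k) (2 * r + 1)) : ℝ))).card : ℝ) ≤
      δ / 2 * (Fintype.card (Dat k (2 * r * k) (2 * r + 1)) : ℝ) := by
    refine le_trans ?_ (h3.trans (mul_le_mul_of_nonneg_right hδ2 hDpos.le))
    apply Nat.cast_le.mpr
    apply card_le_card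
    intro z hz
    rw [mem_filter] at hz
    refine mem_filt _ ?_
    intro i hi
    have hij : i ≠ j := fun h => hjΓ (h ▸ hi)
    obtain ⟨k1, k2, k3⟩ := hKK k r hr hk1 i j hij
    have h4 : ∑ x ∈ X i, ∏ e, ker j e i (z e) (x e) =
        (((X i).filter fun x => adj (i, x) (j, z)).card : ℝ) /
          ∏ e, cnt (2 * r * k) (2 * r + 1) i j e := by
      rw [sum_congr rfl fun x _ => k1 z x, ← sum_div, sum_boole]
    rw [h4, div_le_iff₀ k2]
    have h5 : ((X i).filter fun x => adj (i, x) (j, z)).card ≤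
        (((univ : Finset (Fin k × Dat k (2 * r * k) (2 * r + 1))).filter
          fun p => p.1 ∈ Γ ∧ p.2 ∈ X p.1).filter
          (fun p => adj p (j, z))).card := by
      apply card_le_card_of_injOn (fun x => (i, x))
      · intro x hx
        have hx' := mem_filter.mp (mem_coe.mp hx)
        apply mem_coe.mpr
        rw [mem_filter, mem_filter]
        exact ⟨⟨mem_univ _, hi, hx'.1⟩, hx'.2⟩
      · intro x _ y _ hxy
        exact (Prod.ext_iff.mp hxy).2
    have h6 : (((X i).filter fun x => adj (i, x) (j, z)).card : ℝ) <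
        c / (4 * k * ((2 * r + 1 : ℕ) : ℝ) ^ (3 * k)) *
          (Fintype.card (Fin k × Dat k (2 * r * k) (2 * r + 1)) : ℝ) :=
      lt_of_le_of_lt (Nat.cast_le.mpr h5) hz.2
    have h7 : c / (4 * k * ((2 * r + 1 : ℕ) : ℝ) ^ (3 * k)) *
          (Fintype.card (Fin k × Dat k (2 * r * k) (2 * r + 1)) : ℝ) =
        c / 4 * ((Fintype.card (Dat k (2 * r * k) (2 * r + 1)) : ℝ) /
          ((2 * r + 1 : ℕ) : ℝ) ^ (3 * k)) := by
      rw [Fintype.card_prod, Fintype.card_fin]
      push_cast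
      field_simp
    rw [h7] at h6
    exact h6.le.trans (mul_le_mul_of_nonneg_left k3 (by positivity))
  obtain ⟨Y, hY1, hY2⟩ := hR (Fin k × Dat k (2 * r * k) (2 * r + 1))
    (Dat k (2 * r * k) (2 * r + 1)) (fun p z => adj p (j, z))
    ((univ : Finset (Fin k × Dat k (2 * r * k) (2 * r + 1))).filter
      fun p => p.1 ∈ Γ ∧ p.2 ∈ X p.1)
    (c / (4 * k * ((2 * r + 1 : ℕ) : ℝ) ^ (3 * k))) δ m hSne
    (by positivity) hδ hm hbad
  refine ⟨Y, ?_, hY2⟩
  intro q
  have := hY1 q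
  simpa using this

end Pool.Agent.H14.EP.COV
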