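import Pool.Agent.H14.EP.Base

/-!
Linear-by-polynomial empty pairs in graphs of bounded vector chromatic number: choice of the scale
and the main argument.
-/

namespace Pool.Agent.H14.EP

open Finset

variable {V : Type} {E : Type} [NormedAddCommGroup E] [InnerProductSpace ℝ E]

/-- pigeonhole over scales: a set whose mean vector has almost the largest length among all sets of
the next scale -/
theorem scale [DecidableEq V] (φ : V → E) (hφ : ∀ x, ‖φ x‖ ≤ 1) (W : Finset V) (J : ℕ)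
    (hJ : 0 < J) (m : ℕ → ℝ) (hm1 : ∀ j ≤ J, 1 ≤ m j) (hmW : ∀ j ≤ J, m j ≤ W.card) :
    ∃ j < J, ∃ B ⊆ W, B.Nonempty ∧ m j ≤ B.card ∧
      ∀ B' ⊆ W, m (j + 1) ≤ B'.card → ‖avg φ B'‖ ^ 2 ≤ ‖avg φ B‖ ^ 2 + 1 / J := by
  classical
  have hex : ∀ j, j ≤ J → ∃ B ⊆ W, m j ≤ B.card ∧
      ∀ B' ⊆ W, m j ≤ B'.card → ‖avg φ B'‖ ^ 2 ≤ ‖avg φ B‖ ^ 2 := by
    intro j hj
    obtain ⟨B, hB, hmax⟩ := Finset.exists_max_image
      (W.powerset.filter (fun B => m j ≤ (B.card : ℝ))) (fun B => ‖avg φ B‖ ^ 2)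
      ⟨W, Finset.mem_filter.2 ⟨Finset.mem_powerset.2 (Finset.Subset.refl _), hmW j hj⟩⟩
    rw [Finset.mem_filter, Finset.mem_powerset] at hB
    exact ⟨B, hB.1, hB.2, fun B' hB' hm' =>
      hmax B' (Finset.mem_filter.2 ⟨Finset.mem_powerset.2 hB', hm'⟩)⟩
  choose! Bj hBW hBm hBmax using hex
  have hne : ∀ j ≤ J, (Bj j).Nonempty := by
    intro j hj
    rw [← Finset.card_pos]
    have h1 : (0 : ℝ) < (Bj j).card := by linarith [hm1 j hj, hBm j hj]
    exact_mod_cast h1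
  have hJ' : (0 : ℝ) < J := by exact_mod_cast hJ
  by_contra hcon
  push Not at hcon
  have hstep : ∀ j < J, ‖avg φ (Bj j)‖ ^ 2 + 1 / J < ‖avg φ (Bj (j + 1))‖ ^ 2 := by
    intro j hj
    obtain ⟨B', hB'W, hB'm, hlt⟩ := hcon j hj (Bj j) (hBW j hj.le) (hne j hj.le) (hBm j hj.le)
    exact hlt.trans_le (hBmax (j + 1) hj B' hB'W hB'm)
  have hind : ∀ j ≤ J, (j : ℝ) / J ≤ ‖avg φ (Bj j)‖ ^ 2 := by
    intro j
    induction j with
    | zero => intro _; simp
    | succ j ih =>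
      intro hj
      have h1 := ih (by omega)
      have h2 := hstep j (by omega)
      push_cast
      rw [add_div]
      linarith
  have h1 := hind (J - 1) (by omega)
  have h2 := hstep (J - 1) (by omega)
  rw [Nat.sub_add_cancel hJ] at h2
  have h3 : ‖avg φ (Bj J)‖ ^ 2 ≤ 1 := by
    have := norm_avg_le φ hφ (hne J le_rfl)
    have h0 := norm_nonneg (avg φ (Bj J))
    nlinarith
  have h4 : ((J - 1 : ℕ) : ℝ) / J + 1 / J = 1 := by
    rw [← add_div, Nat.cast_sub hJ]
    push_cast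
    rw [sub_add_cancel, div_self hJ'.ne']
  linarith

theorem core [Fintype V] [DecidableEq V] (G : SimpleGraph V) (φ : V → E) (η : ℝ) (hη : 0 < η)
    (hη1 : η ≤ 1) (hφ : ∀ x, ‖φ x‖ ≤ 1) (hG : ∀ x y, G.Adj x y → inner ℝ (φ x) (φ y) ≤ -η)
    (J : ℕ) (hJ : 0 < J) (hJη : 1 / (J : ℝ) ≤ η ^ 2 / 8) (m : ℕ → ℝ) (r : ℕ)
    (hm1 : ∀ j ≤ J, 1 ≤ m j) (hmW : ∀ j ≤ J, m j ≤ η / 9 * Fintype.card V)
    (hr : ∀ j < J, 4 * (r : ℝ) * m (j + 1) ≤ η ^ 2 / 32 * m j)
    (hrn : (r : ℝ) ≤ η / 32 * Fintype.card V) (hn : 0 < Fintype.card V) :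
    ∃ A B : Finset V, Disjoint A B ∧ η / 32 * Fintype.card V ≤ A.card ∧ B.card = r ∧
      ∀ a ∈ A, ∀ b ∈ B, ¬ G.Adj a b := by
  classical
  set n : ℝ := (Fintype.card V : ℝ) with hnn
  have hn0 : (0 : ℝ) < n := by rw [hnn]; exact_mod_cast hn
  set Ψ : E := ∑ y, φ y with hΨ
  set W : Finset V := Finset.univ.filter (fun x => -(η / 8) * n ≤ inner ℝ (φ x) Ψ) with hW
  have hΨn : ‖Ψ‖ ≤ n := by
    refine (norm_sum_le _ _).trans ?_
    calc ∑ y, ‖φ y‖ ≤ ∑ _y : V, (1 : ℝ) := Finset.sum_le_sum fun y _ => hφ y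
      _ = n := by simp [hnn]
  -- the set `W` is large
  have hWcard : η / 9 * n ≤ W.card := by
    set Wc : Finset V := Finset.univ.filter (fun x => ¬ -(η / 8) * n ≤ inner ℝ (φ x) Ψ) with hWc
    have hcard : (W.card : ℝ) + Wc.card = n := by
      have h0 : W.card + Wc.card = Fintype.card V := by
        rw [← Finset.card_univ]
        exact Finset.card_filter_add_card_filter_not (s := Finset.univ)
          (fun x => -(η / 8) * n ≤ inner ℝ (φ x) Ψ)
      rw [hnn, ← h0]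
      push_cast
      rfl
    have h1 : 0 ≤ ∑ x, inner ℝ (φ x) Ψ := by
      rw [← sum_inner, ← hΨ]
      exact real_inner_self_nonneg
    have h2 : ∑ x, inner ℝ (φ x) Ψ = ∑ x ∈ W, inner ℝ (φ x) Ψ + ∑ x ∈ Wc, inner ℝ (φ x) Ψ :=
      (Finset.sum_filter_add_sum_filter_not Finset.univ _ _).symm
    have h3 : ∑ x ∈ W, inner ℝ (φ x) Ψ ≤ W.card * n := by
      calc ∑ x ∈ W, inner ℝ (φ x) Ψ ≤ ∑ _x ∈ W, n := by
            refine Finset.sum_le_sum fun x _ => (real_inner_le_norm _ _).trans ?_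
            calc ‖φ x‖ * ‖Ψ‖ ≤ 1 * n := mul_le_mul (hφ x) hΨn (norm_nonneg _) (by norm_num)
              _ = n := one_mul _
        _ = W.card * n := by rw [Finset.sum_const, nsmul_eq_mul]
    have h4 : ∑ x ∈ Wc, inner ℝ (φ x) Ψ ≤ Wc.card * (-(η / 8) * n) := by
      calc ∑ x ∈ Wc, inner ℝ (φ x) Ψ ≤ ∑ _x ∈ Wc, (-(η / 8) * n) :=
            Finset.sum_le_sum fun x hx => (not_le.1 (Finset.mem_filter.1 hx).2).le
        _ = Wc.card * (-(η / 8) * n) := by rw [Finset.sum_const, nsmul_eq_mul]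
    have h5 : 0 ≤ (W.card : ℝ) * n + Wc.card * (-(η / 8) * n) := by linarith
    have h6 : 0 ≤ (W.card : ℝ) + Wc.card * (-(η / 8)) := by
      by_contra hneg
      push Not at hneg
      have : ((W.card : ℝ) + Wc.card * (-(η / 8))) * n < 0 := mul_neg_of_neg_of_pos hneg hn0
      nlinarith
    have hW0 : (0 : ℝ) ≤ W.card := Nat.cast_nonneg _
    nlinarith
  obtain ⟨j, hj, B, hBW, hBne, hBm, hBmax⟩ := scale φ hφ W J hJ m hm1
    (fun j hj => (hmW j hj).trans hWcard)
  set u := avg φ B with hu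
  have hun : ‖u‖ ≤ 1 := norm_avg_le φ hφ hBne
  have hs1 : η ^ 2 / 16 ≤ 1 := by nlinarith
  obtain ⟨Bs, hBsB, hBsc, hBsin⟩ := robust φ hφ hBne (η ^ 2 / 16) (by positivity) hs1
  have hmj1 : 1 ≤ m (j + 1) := hm1 (j + 1) hj
  -- the vertices with few neighbours in `Bs`
  set Y : Finset V := Finset.univ.filter
    (fun y => ((Bs.filter (fun x => G.Adj x y)).card : ℝ) < m (j + 1)) with hY
  by_cases hYc : η / 8 * n ≤ Y.card
  · have h4 : 4 * (r : ℝ) * m (j + 1) ≤ Bs.card := by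
      have h5 := hr j hj
      nlinarith [sq_nonneg η]
    obtain ⟨R, hRB, hRc, hR⟩ := markov_subset (fun x y => G.Adj x y) Bs Y (m (j + 1)) r hmj1
      (fun y hy => (Finset.mem_filter.1 hy).2.le) h4
    refine ⟨(Y.filter (fun y => ¬ ∃ x ∈ R, G.Adj x y)) \ R, R, Finset.sdiff_disjoint, ?_, hRc, ?_⟩
    · have h6 : ((Y.filter (fun y => ∃ x ∈ R, G.Adj x y)).card : ℝ) +
          (Y.filter (fun y => ¬ ∃ x ∈ R, G.Adj x y)).card = Y.card := by
        have h0 := Finset.card_filter_add_card_filter_not (s := Y) (fun y => ∃ x ∈ R, G.Adj x y)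
        exact_mod_cast h0
      have h7 : ((Y.filter (fun y => ¬ ∃ x ∈ R, G.Adj x y)).card : ℝ) ≤
          ((Y.filter (fun y => ¬ ∃ x ∈ R, G.Adj x y)) \ R).card + r := by
        have h0 := Finset.card_le_card_sdiff_add_card (t := R)
          (s := Y.filter (fun y => ¬ ∃ x ∈ R, G.Adj x y))
        rw [hRc] at h0
        exact_mod_cast h0
      linarith
    · intro a ha b hb hab
      rw [Finset.mem_sdiff, Finset.mem_filter] at ha
      exact ha.1.2 ⟨b, hb, hab.symm⟩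
  · exfalso
    push Not at hYc
    -- all vertices outside `Y` see `u` negatively
    have hneg : ∀ y, y ∉ Y → inner ℝ u (φ y) ≤ -(η / 2) := by
      intro y hy
      have hge : m (j + 1) ≤ ((Bs.filter (fun x => G.Adj x y)).card : ℝ) := by
        by_contra hlt
        push Not at hlt
        exact hy (Finset.mem_filter.2 ⟨Finset.mem_univ _, hlt⟩)
      set B' := Bs.filter (fun x => G.Adj x y) with hB'
      have hB'ne : B'.Nonempty := by
        rw [← Finset.card_pos]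
        have h1 : (0 : ℝ) < B'.card := by linarith
        exact_mod_cast h1
      have hB's : B' ⊆ Bs := Finset.filter_subset _ _
      have hcl := close φ (B := B) hB'ne (η ^ 2 / 16) (1 / J)
        (fun x hx => hBsin x (hB's hx)) (hBmax B' ((hB's.trans hBsB).trans hBW) hge)
      have hcl2 : ‖u - avg φ B'‖ ≤ η / 2 := by
        have h1 : ‖u - avg φ B'‖ ^ 2 ≤ (η / 2) ^ 2 := by
          refine hcl.trans ?_
          nlinarith
        exact le_of_sq_le_sq h1 (by positivity)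
      have h2 : inner ℝ (avg φ B') (φ y) ≤ -η :=
        inner_avg_le φ hB'ne (φ y) (-η) fun x hx => hG x y (Finset.mem_filter.1 hx).2
      have h3 : inner ℝ (u - avg φ B') (φ y) ≤ η / 2 := by
        refine (real_inner_le_norm _ _).trans ?_
        calc ‖u - avg φ B'‖ * ‖φ y‖ ≤ (η / 2) * 1 :=
              mul_le_mul hcl2 (hφ y) (norm_nonneg _) (by positivity)
          _ = η / 2 := mul_one _
      rw [inner_sub_left] at h3
      linarith
    -- compare with the mean over all vertices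
    have h1 : -(η / 8) * n ≤ inner ℝ u Ψ :=
      le_inner_avg φ hBne Ψ _ fun x hx => (Finset.mem_filter.1 (hBW hx)).2
    have h2 : inner ℝ u Ψ = ∑ y, inner ℝ u (φ y) := by rw [hΨ, inner_sum]
    set Yc : Finset V := Finset.univ.filter
      (fun y => ¬ ((Bs.filter (fun x => G.Adj x y)).card : ℝ) < m (j + 1)) with hYcc
    have hcard : (Y.card : ℝ) + Yc.card = n := by
      have h0 : Y.card + Yc.card = Fintype.card V := by
        rw [← Finset.card_univ]
        exact Finset.card_filter_add_card_filter_not (s := Finset.univ)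
          (fun y => ((Bs.filter (fun x => G.Adj x y)).card : ℝ) < m (j + 1))
      rw [hnn, ← h0]
      push_cast
      rfl
    have h3 : ∑ y, inner ℝ u (φ y) = ∑ y ∈ Y, inner ℝ u (φ y) + ∑ y ∈ Yc, inner ℝ u (φ y) :=
      (Finset.sum_filter_add_sum_filter_not Finset.univ _ _).symm
    have h4 : ∑ y ∈ Y, inner ℝ u (φ y) ≤ Y.card * 1 := by
      calc ∑ y ∈ Y, inner ℝ u (φ y) ≤ ∑ _y ∈ Y, (1 : ℝ) := by
            refine Finset.sum_le_sum fun x _ => (real_inner_le_norm _ _).trans ?_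
            exact mul_le_one₀ hun (norm_nonneg _) (hφ x)
        _ = Y.card * 1 := by rw [Finset.sum_const, nsmul_eq_mul]
    have h5 : ∑ y ∈ Yc, inner ℝ u (φ y) ≤ Yc.card * (-(η / 2)) := by
      calc ∑ y ∈ Yc, inner ℝ u (φ y) ≤ ∑ _y ∈ Yc, (-(η / 2)) := by
            refine Finset.sum_le_sum fun y hy => hneg y ?_
            intro hy2
            exact (Finset.mem_filter.1 hy).2 (Finset.mem_filter.1 hy2).2
        _ = Yc.card * (-(η / 2)) := by rw [Finset.sum_const, nsmul_eq_mul]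
    have h6 : (Yc.card : ℝ) = n - Y.card := by linarith
    rw [h6] at h5
    have h7 : -(η / 8) * n ≤ Y.card + (n - Y.card) * (-(η / 2)) := by linarith
    nlinarith [mul_pos hη hn0]

end Pool.Agent.H14.EP
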