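import Pool.Agent.H14.EP.Core

/-!
Linear-by-polynomial empty pairs in graphs of bounded vector chromatic number: the theorem with
explicit constants.
-/

namespace Pool.Agent.H14.EP

open Finset

theorem main (η : ℝ) (hη : 0 < η) (hη1 : η ≤ 1) :
    ∃ n₀ : ℕ, ∀ n : ℕ, n₀ ≤ n → ∀ (G : SimpleGraph (Fin n)) (E : Type) [NormedAddCommGroup E]
      [InnerProductSpace ℝ E] (φ : Fin n → E), (∀ x, ‖φ x‖ = 1) →
      (∀ x y, G.Adj x y → inner ℝ (φ x) (φ y) ≤ -η) →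
      ∃ A B : Finset (Fin n), Disjoint A B ∧ η / 32 * n ≤ A.card ∧
        (n : ℝ) ^ (η ^ 2 / 72) ≤ B.card ∧ ∀ a ∈ A, ∀ b ∈ B, ¬ G.Adj a b := by
  set c : ℝ := η ^ 2 / 72 with hc
  have hc0 : 0 < c := by positivity
  have e1 : ∀ᶠ n : ℕ in Filter.atTop, 256 / η ^ 2 ≤ (n : ℝ) ^ c :=
    ((tendsto_rpow_atTop hc0).comp tendsto_natCast_atTop_atTop).eventually_ge_atTop _
  have e2 : ∀ᶠ n : ℕ in Filter.atTop, 64 / η ≤ (n : ℝ) ^ (1 / 2 : ℝ) :=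
    ((tendsto_rpow_atTop (by norm_num : (0 : ℝ) < 1 / 2)).comp
      tendsto_natCast_atTop_atTop).eventually_ge_atTop _
  obtain ⟨n₀, hn₀⟩ := Filter.eventually_atTop.1 ((e1.and e2).and (Filter.eventually_ge_atTop 1))
  refine ⟨n₀, fun n hn G E _ _ φ hφ hG => ?_⟩
  obtain ⟨⟨h1, h2⟩, h3⟩ := hn₀ n hn
  have hnR : (1 : ℝ) ≤ n := by exact_mod_cast h3
  have hn0 : (0 : ℝ) < n := by linarith
  set J : ℕ := ⌈8 / η ^ 2⌉₊ with hJ
  have hJ8 : 8 / η ^ 2 ≤ J := Nat.le_ceil _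
  have hJpos : 0 < J := by
    have : (0 : ℝ) < J := lt_of_lt_of_le (by positivity) hJ8
    exact_mod_cast this
  have hJR : (0 : ℝ) < J := by exact_mod_cast hJpos
  have hJle : (J : ℝ) ≤ 9 / η ^ 2 := by
    have h4 : (J : ℝ) < 8 / η ^ 2 + 1 := Nat.ceil_lt_add_one (by positivity)
    have h5 : (1 : ℝ) ≤ 1 / η ^ 2 := by
      rw [le_div_iff₀ (by positivity)]
      nlinarith
    have h6 : (9 : ℝ) / η ^ 2 = 8 / η ^ 2 + 1 / η ^ 2 := by ring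
    linarith
  set δ : ℝ := 1 / (4 * J) with hδ
  have hδc : 2 * c ≤ δ := by
    rw [hδ, hc, le_div_iff₀ (by positivity)]
    have h7 : (J : ℝ) * η ^ 2 ≤ 9 := by
      rwa [le_div_iff₀ (by positivity)] at hJle
    nlinarith
  have hJδ : (J : ℝ) * δ = 1 / 4 := by
    rw [hδ]
    field_simp
  set m : ℕ → ℝ := fun j => (n : ℝ) ^ (1 / 2 - j * δ) with hm
  set r : ℕ := ⌈(n : ℝ) ^ c⌉₊ with hr
  have hnc1 : (1 : ℝ) ≤ (n : ℝ) ^ c := Real.one_le_rpow hnR hc0.le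
  have hr2 : (r : ℝ) ≤ 2 * (n : ℝ) ^ c := by
    have : (r : ℝ) < (n : ℝ) ^ c + 1 := Nat.ceil_lt_add_one (by positivity)
    linarith
  have hδ0 : 0 < δ := by positivity
  have hjδ : ∀ j ≤ J, (j : ℝ) * δ ≤ 1 / 4 := by
    intro j hj
    rw [← hJδ]
    exact mul_le_mul_of_nonneg_right (by exact_mod_cast hj) hδ0.le
  have hhalf : (n : ℝ) ^ (1 / 2 : ℝ) * (n : ℝ) ^ (1 / 2 : ℝ) = n := by
    rw [← Real.rpow_add hn0]
    norm_num
  have hhalf0 : 0 < (n : ℝ) ^ (1 / 2 : ℝ) := Real.rpow_pos_of_pos hn0 _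
  have h64 : 64 ≤ η * (n : ℝ) ^ (1 / 2 : ℝ) := by
    rw [div_le_iff₀ hη] at h2
    linarith
  have hcore := core G φ η hη hη1 (fun x => (hφ x).le) hG J hJpos ?_ m r ?_ ?_ ?_ ?_ ?_
  · obtain ⟨A, B, hAB, hA, hB, hE⟩ := hcore
    rw [Fintype.card_fin] at hA
    refine ⟨A, B, hAB, hA, ?_, hE⟩
    rw [hB]
    exact Nat.le_ceil _
  · rw [div_le_iff₀ hJR]
    rw [div_le_iff₀ (by positivity)] at hJ8
    linarith
  · intro j hj
    refine Real.one_le_rpow hnR ?_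
    linarith [hjδ j hj]
  · intro j hj
    rw [Fintype.card_fin]
    have h4 : m j ≤ (n : ℝ) ^ (1 / 2 : ℝ) := by
      refine Real.rpow_le_rpow_of_exponent_le hnR ?_
      have : 0 ≤ (j : ℝ) * δ := by positivity
      linarith
    refine h4.trans ?_
    calc (n : ℝ) ^ (1 / 2 : ℝ) = 1 * (n : ℝ) ^ (1 / 2 : ℝ) := (one_mul _).symm
      _ ≤ (η / 9 * (n : ℝ) ^ (1 / 2 : ℝ)) * (n : ℝ) ^ (1 / 2 : ℝ) :=
          mul_le_mul_of_nonneg_right (by linarith) hhalf0.le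
      _ = η / 9 * n := by rw [mul_assoc, hhalf]
  · intro j hj
    have h4 : m j = m (j + 1) * (n : ℝ) ^ δ := by
      simp only [hm]
      rw [← Real.rpow_add hn0]
      congr 1
      push_cast
      ring
    have hm0 : 0 < m (j + 1) := Real.rpow_pos_of_pos hn0 _
    have h5 : (n : ℝ) ^ c * (n : ℝ) ^ c ≤ (n : ℝ) ^ δ := by
      rw [← Real.rpow_add hn0]
      refine Real.rpow_le_rpow_of_exponent_le hnR ?_
      linarith
    have h6 : 256 ≤ η ^ 2 * (n : ℝ) ^ c := by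
      rw [div_le_iff₀ (by positivity)] at h1
      linarith
    have h7 : 4 * (r : ℝ) ≤ η ^ 2 / 32 * (n : ℝ) ^ δ := by
      have h8 : 8 * (n : ℝ) ^ c ≤ η ^ 2 / 32 * ((n : ℝ) ^ c * (n : ℝ) ^ c) := by
        nlinarith
      have h9 : η ^ 2 / 32 * ((n : ℝ) ^ c * (n : ℝ) ^ c) ≤ η ^ 2 / 32 * (n : ℝ) ^ δ :=
        mul_le_mul_of_nonneg_left h5 (by positivity)
      linarith
    rw [h4]
    calc 4 * (r : ℝ) * m (j + 1) ≤ (η ^ 2 / 32 * (n : ℝ) ^ δ) * m (j + 1) :=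
          mul_le_mul_of_nonneg_right h7 hm0.le
      _ = η ^ 2 / 32 * (m (j + 1) * (n : ℝ) ^ δ) := by ring
  · rw [Fintype.card_fin]
    have hc12 : c ≤ 1 / 2 := by
      rw [hc]
      nlinarith
    have h4 : (n : ℝ) ^ c ≤ (n : ℝ) ^ (1 / 2 : ℝ) := Real.rpow_le_rpow_of_exponent_le hnR hc12
    refine hr2.trans ?_
    calc 2 * (n : ℝ) ^ c ≤ 2 * (n : ℝ) ^ (1 / 2 : ℝ) := by linarith
      _ ≤ (η / 32 * (n : ℝ) ^ (1 / 2 : ℝ)) * (n : ℝ) ^ (1 / 2 : ℝ) :=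
          mul_le_mul_of_nonneg_right (by linarith) hhalf0.le
      _ = η / 32 * n := by rw [mul_assoc, hhalf]
  · rw [Fintype.card_fin]
    exact h3

end Pool.Agent.H14.EP
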